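import Pool.Agent.Helper50.MB.Goals

/-!
Packet MB-EV of project MB (MP_fda85d_co).
-/

namespace Pool.Agent.Helper5.MB

open Pool.Agent.Helper50.MB

open Classical in
theorem inc_sum {X E : Type} [Fintype X] (gs gt : E → X) (A : X → Prop) (e : E) :
    ∑ x, (if A x then (1 : ZMod 2) else 0) * (inc gs gt x e : ZMod 2) =
      (if A (gs e) then (1 : ZMod 2) else 0) + (if A (gt e) then (1 : ZMod 2) else 0) := by
  have h : ∀ x, (if A x then (1 : ZMod 2) else 0) * (inc gs gt x e : ZMod 2) =
      (if gs e = x then (if A x then (1 : ZMod 2) else 0) else 0) +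
      (if gt e = x then (if A x then (1 : ZMod 2) else 0) else 0) := by
    intro x
    unfold inc
    by_cases h1 : gs e = x <;> by_cases h2 : gt e = x <;> by_cases h3 : A x <;>
      simp [h1, h2, h3]
    norm_num
  rw [Finset.sum_congr rfl fun x _ => h x, Finset.sum_add_distrib]
  simp

open Classical in
theorem goalEV : EV := by
  intro X F E _ _ _ gs gt qs qt hev A D
  have hz : ∀ x f, ∑ e, (inc gs gt x e : ZMod 2) * (inc qs qt f e : ZMod 2) = 0 := by
    intro x f
    have h := (ZMod.natCast_eq_zero_iff_even).2 (hev x f)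
    rw [Nat.cast_sum] at h
    simpa using h
  have key : ∑ e, (∑ x, (if A x then (1 : ZMod 2) else 0) * (inc gs gt x e : ZMod 2)) *
      (∑ f, (if D f then (1 : ZMod 2) else 0) * (inc qs qt f e : ZMod 2)) = 0 := by
    have h1 : ∀ e, (∑ x, (if A x then (1 : ZMod 2) else 0) * (inc gs gt x e : ZMod 2)) *
        (∑ f, (if D f then (1 : ZMod 2) else 0) * (inc qs qt f e : ZMod 2)) =
        ∑ x, ∑ f, ((if A x then (1 : ZMod 2) else 0) * (if D f then (1 : ZMod 2) else 0)) *
          ((inc gs gt x e : ZMod 2) * (inc qs qt f e : ZMod 2)) := by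
      intro e
      rw [Finset.sum_mul_sum]
      refine Finset.sum_congr rfl fun x _ => Finset.sum_congr rfl fun f _ => ?_
      ring
    rw [Finset.sum_congr rfl fun e _ => h1 e, Finset.sum_comm]
    refine Finset.sum_eq_zero fun x _ => ?_
    rw [Finset.sum_comm]
    refine Finset.sum_eq_zero fun f _ => ?_
    rw [← Finset.mul_sum, hz x f, mul_zero]
  have h2 : ∀ e, (∑ x, (if A x then (1 : ZMod 2) else 0) * (inc gs gt x e : ZMod 2)) *
      (∑ f, (if D f then (1 : ZMod 2) else 0) * (inc qs qt f e : ZMod 2)) =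
      if (¬ (A (gs e) ↔ A (gt e)) ∧ ¬ (D (qs e) ↔ D (qt e))) then 1 else 0 := by
    intro e
    rw [inc_sum, inc_sum]
    by_cases a1 : A (gs e) <;> by_cases a2 : A (gt e) <;> by_cases a3 : D (qs e) <;>
      by_cases a4 : D (qt e) <;> simp [a1, a2, a3, a4] <;> rfl
  rw [Finset.sum_congr rfl fun e _ => h2 e, Finset.sum_boole] at key
  have h3 := ZMod.natCast_eq_zero_iff_even.1 key
  have h4 : {e | ¬ (A (gs e) ↔ A (gt e)) ∧ ¬ (D (qs e) ↔ D (qt e))}.ncard =
      (Finset.univ.filter fun e => ¬ (A (gs e) ↔ A (gt e)) ∧ ¬ (D (qs e) ↔ D (qt e))).card := by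
    rw [← Set.ncard_coe_finset]
    congr 1
    ext e
    simp
  rw [h4]
  exact h3

end Pool.Agent.Helper5.MB
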