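import Pool.Agent.Helper50.MB.Goals

/-!
Packet MB-RATE of project MB (MP_fda85d_co): a rate in the ratio limit lemma.
-/

namespace Pool.Agent.Helper5.MB

open Pool.Agent.Helper50.MB

theorem phi_add {L : ℕ → ℝ} (h3 : ∀ n : ℕ, 1 ≤ n → ((n : ℝ) + 1) * Real.exp (L n - L (n + 1)) ≤
      n * Real.exp (L (n - 1) - L n) + 1) (n k : ℕ) :
    ((n : ℝ) + k + 1) * Real.exp (L (n + k) - L (n + k + 1)) ≤
      ((n : ℝ) + 1) * Real.exp (L n - L (n + 1)) + k := by
  induction k with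
  | zero => simp
  | succ k ih =>
    have h := h3 (n + k + 1) (by omega)
    rw [Nat.add_sub_cancel] at h
    push_cast at h ih ⊢
    have e1 : n + (k + 1) = n + k + 1 := by ring
    rw [e1]
    have e2 : (n : ℝ) + (k + 1) + 1 = n + k + 1 + 1 := by ring
    rw [e2]
    linarith

theorem exp_aux1 {δ : ℝ} (h0 : 0 ≤ δ) (h1 : δ ≤ 1) :
    δ / 10 ≤ Real.exp (-(δ / 2)) - Real.exp (-δ) := by
  have e1 : Real.exp (-(δ / 2)) = Real.exp (-δ) * Real.exp (δ / 2) := by
    rw [← Real.exp_add]; congr 1; ring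
  have e2 : δ / 2 + 1 ≤ Real.exp (δ / 2) := Real.add_one_le_exp _
  have e3 : Real.exp (-1) ≤ Real.exp (-δ) := Real.exp_le_exp.2 (by linarith)
  have e4 : (1 : ℝ) / 3 ≤ Real.exp (-1) := by
    rw [Real.exp_neg, ← one_div]
    apply one_div_le_one_div_of_le (Real.exp_pos _)
    have := Real.exp_one_lt_d9
    linarith
  rw [e1]
  have e5 : (1 : ℝ) / 3 ≤ Real.exp (-δ) := e4.trans e3
  nlinarith [Real.exp_pos (-δ)]

theorem exp_aux2 {η : ℝ} (h0 : 0 ≤ η) :
    η / 2 ≤ Real.exp η - Real.exp (η / 2) := by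
  have e1 : Real.exp η = Real.exp (η / 2) * Real.exp (η / 2) := by
    rw [← Real.exp_add]; congr 1; ring
  have e2 : η / 2 + 1 ≤ Real.exp (η / 2) := Real.add_one_le_exp _
  have e3 : 1 ≤ Real.exp (η / 2) := by linarith
  rw [e1]
  nlinarith

theorem rateA {L : ℕ → ℝ} {ℓ c D : ℝ} (h1 : ∀ n : ℕ, L n ≤ n * ℓ)
    (h3 : ∀ n : ℕ, 1 ≤ n → ((n : ℝ) + 1) * Real.exp (L n - L (n + 1)) ≤
      n * Real.exp (L (n - 1) - L n) + 1) (n : ℕ) (h2 : n * ℓ - D ≤ L n) {δ : ℝ}
    (h0 : 0 ≤ δ) (h01 : δ ≤ 1) (hδ : ℓ + δ ≤ L (n + 1) - L n) (hc : 0 < c)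
    (hc' : c ≤ Real.exp (-ℓ) / 10) : c * δ ^ 2 * n ≤ 2 * D := by
  have hstep : ∀ k : ℕ, (k : ℝ) ≤ c * δ * n → ℓ + δ / 2 ≤ L (n + k + 1) - L (n + k) := by
    intro k hk
    have hp := phi_add h3 n k
    have e1 : Real.exp (L n - L (n + 1)) ≤ Real.exp (-ℓ - δ) := Real.exp_le_exp.2 (by linarith)
    have e2 : Real.exp (-ℓ - δ) = Real.exp (-ℓ) * Real.exp (-δ) := by
      rw [← Real.exp_add]; congr 1
    have e3 : Real.exp (-ℓ - δ / 2) = Real.exp (-ℓ) * Real.exp (-(δ / 2)) := by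
      rw [← Real.exp_add]; congr 1
    have e4 : c * δ ≤ Real.exp (-ℓ - δ / 2) - Real.exp (-ℓ - δ) := by
      rw [e2, e3]
      have := exp_aux1 h0 h01
      have h5 : c * δ ≤ Real.exp (-ℓ) / 10 * δ := mul_le_mul_of_nonneg_right hc' h0
      have h6 : Real.exp (-ℓ) * (δ / 10) ≤
          Real.exp (-ℓ) * (Real.exp (-(δ / 2)) - Real.exp (-δ)) :=
        mul_le_mul_of_nonneg_left this (Real.exp_pos _).le
      nlinarith
    have hn0 : (0 : ℝ) ≤ n := Nat.cast_nonneg n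
    have hk0 : (0 : ℝ) ≤ k := Nat.cast_nonneg k
    have e5 : ((n : ℝ) + 1) * Real.exp (-ℓ - δ) + k ≤
        ((n : ℝ) + k + 1) * Real.exp (-ℓ - δ / 2) := by
      have h7 : (k : ℝ) ≤ ((n : ℝ) + 1) * (c * δ) := by
        have : 0 ≤ c * δ := by positivity
        nlinarith
      have h8 : ((n : ℝ) + 1) * (c * δ) ≤
          ((n : ℝ) + 1) * (Real.exp (-ℓ - δ / 2) - Real.exp (-ℓ - δ)) :=
        mul_le_mul_of_nonneg_left e4 (by linarith)
      have h9 : 0 ≤ (k : ℝ) * Real.exp (-ℓ - δ / 2) := by positivity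
      nlinarith
    have e6 : ((n : ℝ) + k + 1) * Real.exp (L (n + k) - L (n + k + 1)) ≤
        ((n : ℝ) + k + 1) * Real.exp (-ℓ - δ / 2) := by
      have h10 : ((n : ℝ) + 1) * Real.exp (L n - L (n + 1)) ≤
          ((n : ℝ) + 1) * Real.exp (-ℓ - δ) := mul_le_mul_of_nonneg_left e1 (by linarith)
      linarith
    have e7 := le_of_mul_le_mul_left e6 (by positivity)
    have e8 := Real.exp_le_exp.1 e7
    linarith
  have hsum : ∀ j : ℕ, (j : ℝ) ≤ c * δ * n + 1 → L n + j * (ℓ + δ / 2) ≤ L (n + j) := by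
    intro j
    induction j with
    | zero => intro _; simp
    | succ j ih =>
      intro hj
      push_cast at hj ⊢
      have i1 := ih (by linarith)
      have i2 := hstep j (by linarith)
      have e1 : n + (j + 1) = n + j + 1 := by ring
      rw [e1]
      linarith
  have hnn : 0 ≤ c * δ * n := by positivity
  have k1 := Nat.floor_le hnn
  have k2 := Nat.lt_floor_add_one (c * δ * n)
  have k3 := hsum (⌊c * δ * n⌋₊ + 1) (by push_cast; linarith)
  have k4 := h1 (n + (⌊c * δ * n⌋₊ + 1))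
  push_cast at k3 k4
  have k5 : ((⌊c * δ * n⌋₊ : ℝ) + 1) * (δ / 2) ≤ D := by nlinarith
  have k6 : c * δ * n * (δ / 2) ≤ ((⌊c * δ * n⌋₊ : ℝ) + 1) * (δ / 2) :=
    mul_le_mul_of_nonneg_right k2.le (by linarith)
  nlinarith

theorem rateB {L : ℕ → ℝ} {ℓ c D : ℝ} (h1 : ∀ n : ℕ, L n ≤ n * ℓ)
    (h3 : ∀ n : ℕ, 1 ≤ n → ((n : ℝ) + 1) * Real.exp (L n - L (n + 1)) ≤
      n * Real.exp (L (n - 1) - L n) + 1) (n : ℕ)
    (h2 : ((n : ℝ) + 1) * ℓ - D ≤ L (n + 1)) {η : ℝ}
    (h0 : 0 ≤ η) (h01 : η ≤ 1) (hη : L (n + 1) - L n ≤ ℓ - η) (hc : 0 < c) (hc1 : c ≤ 1)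
    (hc' : c ≤ Real.exp (-ℓ) / 10) : c * η ^ 2 * n ≤ 2 * D := by
  have hn0 : (0 : ℝ) ≤ n := Nat.cast_nonneg n
  have hle : c * η * n ≤ n := by
    have : c * η ≤ 1 := by nlinarith
    nlinarith
  have hstep : ∀ k : ℕ, (k : ℝ) ≤ c * η * n → L (n - k + 1) - L (n - k) ≤ ℓ - η / 2 := by
    intro k hk
    have hkn : k ≤ n := by
      have : (k : ℝ) ≤ n := hk.trans hle
      exact_mod_cast this
    obtain ⟨m, rfl⟩ : ∃ m, n = m + k := ⟨n - k, by omega⟩
    rw [Nat.add_sub_cancel]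
    have hp := phi_add h3 m k
    push_cast at hk
    have hk0 : (0 : ℝ) ≤ k := Nat.cast_nonneg k
    have hm0 : (0 : ℝ) ≤ m := Nat.cast_nonneg m
    have e1 : Real.exp (-ℓ + η) ≤ Real.exp (L (m + k) - L (m + k + 1)) :=
      Real.exp_le_exp.2 (by linarith)
    have e2 : Real.exp (-ℓ + η) = Real.exp (-ℓ) * Real.exp η := Real.exp_add _ _
    have e3 : Real.exp (-ℓ + η / 2) = Real.exp (-ℓ) * Real.exp (η / 2) := Real.exp_add _ _
    have e4 : c * η ≤ Real.exp (-ℓ + η) - Real.exp (-ℓ + η / 2) := by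
      rw [e2, e3]
      have := exp_aux2 h0
      have h5 : c * η ≤ Real.exp (-ℓ) / 10 * η := mul_le_mul_of_nonneg_right hc' h0
      have h6 : Real.exp (-ℓ) * (η / 2) ≤
          Real.exp (-ℓ) * (Real.exp η - Real.exp (η / 2)) :=
        mul_le_mul_of_nonneg_left this (Real.exp_pos _).le
      have h7 : 0 ≤ Real.exp (-ℓ) * η := by positivity
      nlinarith
    have e5 : ((m : ℝ) + 1) * Real.exp (-ℓ + η / 2) ≤
        ((m : ℝ) + k + 1) * Real.exp (-ℓ + η) - k := by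
      have h7 : (k : ℝ) ≤ ((m : ℝ) + k + 1) * (c * η) := by
        have : 0 ≤ c * η := by positivity
        nlinarith
      have h8 : ((m : ℝ) + k + 1) * (c * η) ≤
          ((m : ℝ) + k + 1) * (Real.exp (-ℓ + η) - Real.exp (-ℓ + η / 2)) :=
        mul_le_mul_of_nonneg_left e4 (by linarith)
      have h9 : 0 ≤ (k : ℝ) * Real.exp (-ℓ + η / 2) := by positivity
      nlinarith
    have e6 : ((m : ℝ) + 1) * Real.exp (-ℓ + η / 2) ≤
        ((m : ℝ) + 1) * Real.exp (L m - L (m + 1)) := by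
      have h10 : ((m : ℝ) + k + 1) * Real.exp (-ℓ + η) ≤
          ((m : ℝ) + k + 1) * Real.exp (L (m + k) - L (m + k + 1)) :=
        mul_le_mul_of_nonneg_left e1 (by linarith)
      linarith
    have e7 := le_of_mul_le_mul_left e6 (by positivity)
    have e8 := Real.exp_le_exp.1 e7
    linarith
  have hsum : ∀ j : ℕ, (j : ℝ) ≤ c * η * n + 1 →
      L (n + 1) ≤ L (n + 1 - j) + j * (ℓ - η / 2) := by
    intro j
    induction j with
    | zero => intro _; simp
    | succ j ih =>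
      intro hj
      push_cast at hj ⊢
      have i1 := ih (by linarith)
      have i2 := hstep j (by linarith)
      have hjn : j ≤ n := by
        have : (j : ℝ) ≤ n := by linarith
        exact_mod_cast this
      have e2 : n + 1 - j = n - j + 1 := by omega
      rw [e2] at i1
      linarith
  have hnn : 0 ≤ c * η * n := by positivity
  have k1 := Nat.floor_le hnn
  have k2 := Nat.lt_floor_add_one (c * η * n)
  have k3 := hsum (⌊c * η * n⌋₊ + 1) (by push_cast; linarith)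
  have hKn : ⌊c * η * n⌋₊ ≤ n := by
    have : (⌊c * η * n⌋₊ : ℝ) ≤ n := k1.trans hle
    exact_mod_cast this
  have k4 := h1 (n - ⌊c * η * n⌋₊)
  have k5 : ((n - ⌊c * η * n⌋₊ : ℕ) : ℝ) = (n : ℝ) - ⌊c * η * n⌋₊ := Nat.cast_sub hKn
  rw [k5] at k4
  push_cast at k3
  have k6 : ((⌊c * η * n⌋₊ : ℝ) + 1) * (η / 2) ≤ D := by nlinarith
  have k7 : c * η * n * (η / 2) ≤ ((⌊c * η * n⌋₊ : ℝ) + 1) * (η / 2) :=
    mul_le_mul_of_nonneg_right k2.le (by linarith)
  nlinarith

theorem r_sq (n : ℕ) (hn : 2 ≤ n) :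
    ((n : ℝ) ^ (-(1 / 4 : ℝ)) * Real.sqrt (Real.log n)) ^ 2 * n =
      Real.sqrt n * Real.log n := by
  have hn0 : (0 : ℝ) < n := by positivity
  have hlog : 0 ≤ Real.log n := Real.log_natCast_nonneg n
  rw [mul_pow, Real.sq_sqrt hlog, ← Real.rpow_natCast ((n : ℝ) ^ (-(1 / 4 : ℝ))) 2,
    ← Real.rpow_mul hn0.le]
  have e1 : (n : ℝ) ^ (-(1 / 4 : ℝ) * ((2 : ℕ) : ℝ)) * n = Real.sqrt n := by
    rw [Real.sqrt_eq_rpow]
    nth_rewrite 2 [← Real.rpow_one (n : ℝ)]
    rw [← Real.rpow_add hn0]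
    congr 1
    norm_num
  rw [mul_right_comm, e1]

theorem r_tendsto : Filter.Tendsto
    (fun n : ℕ => (n : ℝ) ^ (-(1 / 4 : ℝ)) * Real.sqrt (Real.log n)) Filter.atTop (nhds 0) := by
  have h : Filter.Tendsto (fun n : ℕ => Real.log n / (n : ℝ) ^ (1 / 2 : ℝ)) Filter.atTop
      (nhds 0) :=
    ((isLittleO_log_rpow_atTop (by norm_num : (0 : ℝ) < 1 / 2)).tendsto_div_nhds_zero).comp
      tendsto_natCast_atTop_atTop
  have h2 : Filter.Tendsto (fun n : ℕ => Real.sqrt (Real.log n / (n : ℝ) ^ (1 / 2 : ℝ)))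
      Filter.atTop (nhds 0) := by
    have := (Real.continuous_sqrt.tendsto 0).comp h
    rwa [Real.sqrt_zero] at this
  refine h2.congr fun n => ?_
  rw [Real.sqrt_div' _ (by positivity), Real.sqrt_eq_rpow ((n : ℝ) ^ (1 / 2 : ℝ)),
    ← Real.rpow_mul (by positivity), Real.rpow_neg (by positivity), div_eq_mul_inv, mul_comm]
  norm_num

theorem goalRATE : RATE := by
  intro L ℓ C₀ h1 h2₀ h3
  -- a positive constant
  obtain ⟨C, hC, h2⟩ : ∃ C : ℝ, 0 < C ∧ ∀ n : ℕ, 2 ≤ n →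
      n * ℓ - C * (Real.sqrt n * Real.log n) ≤ L n := by
    refine ⟨max C₀ 1, lt_of_lt_of_le one_pos (le_max_right _ _), fun n hn => ?_⟩
    have hs : 0 ≤ Real.sqrt n * Real.log n :=
      mul_nonneg (Real.sqrt_nonneg _) (Real.log_natCast_nonneg n)
    have := mul_le_mul_of_nonneg_right (le_max_left C₀ 1) hs
    linarith [h2₀ n hn]
  obtain ⟨c, hc0, hc1, hc2⟩ : ∃ c : ℝ, 0 < c ∧ c ≤ 1 ∧ c ≤ Real.exp (-ℓ) / 10 :=
    ⟨min 1 (Real.exp (-ℓ) / 10), lt_min one_pos (by positivity), min_le_left _ _,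
      min_le_right _ _⟩
  obtain ⟨r, hr⟩ : ∃ r : ℕ → ℝ, ∀ n : ℕ,
      r n = (n : ℝ) ^ (-(1 / 4 : ℝ)) * Real.sqrt (Real.log n) := ⟨_, fun _ => rfl⟩
  have hrpos : ∀ n, 2 ≤ n → 0 < r n := by
    intro n hn
    rw [hr]
    have h4 : 0 < Real.log n := Real.log_pos (by exact_mod_cast hn)
    have h5 : (0 : ℝ) < n := by positivity
    positivity
  have main : ∀ n : ℕ, 2 ≤ n →
      min |L (n + 1) - L n - ℓ| 1 ≤ Real.sqrt (8 * C / c) * r n := by
    intro n hn
    have hn0 : (0 : ℝ) < n := by positivity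
    have hs : 0 ≤ Real.sqrt n * Real.log n :=
      mul_nonneg (Real.sqrt_nonneg _) (Real.log_natCast_nonneg n)
    obtain ⟨δ, hδ⟩ : ∃ δ : ℝ, δ = min |L (n + 1) - L n - ℓ| 1 := ⟨_, rfl⟩
    have hδ0 : 0 ≤ δ := by rw [hδ]; exact le_min (abs_nonneg _) zero_le_one
    have hδ1 : δ ≤ 1 := by rw [hδ]; exact min_le_right _ _
    have hδ2 : δ ≤ |L (n + 1) - L n - ℓ| := by rw [hδ]; exact min_le_left _ _
    rw [← hδ]
    have key : c * δ ^ 2 * n ≤ 8 * C * (Real.sqrt n * Real.log n) := by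
      rcases le_total 0 (L (n + 1) - L n - ℓ) with hp | hp
      · rw [abs_of_nonneg hp] at hδ2
        have := rateA h1 h3 n (h2 n hn) hδ0 hδ1 (by linarith) hc0 hc2
        nlinarith [mul_nonneg hC.le hs]
      · rw [abs_of_nonpos hp] at hδ2
        have h2' := h2 (n + 1) (by omega)
        push_cast at h2'
        have := rateB h1 h3 n h2' hδ0 hδ1 (by linarith) hc0 hc1 hc2
        have hsq : Real.sqrt ((n : ℝ) + 1) ≤ 2 * Real.sqrt n := by
          rw [show (2 : ℝ) * Real.sqrt n = Real.sqrt (4 * n) by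
            rw [Real.sqrt_mul (by norm_num), show (4 : ℝ) = 2 ^ 2 by norm_num,
              Real.sqrt_sq (by norm_num)]]
          apply Real.sqrt_le_sqrt
          have : (2 : ℝ) ≤ n := by exact_mod_cast hn
          linarith
        have hlg : Real.log ((n : ℝ) + 1) ≤ 2 * Real.log n := by
          rw [show (2 : ℝ) * Real.log n = Real.log ((n : ℝ) ^ 2) by
            rw [Real.log_pow]; norm_num]
          apply Real.log_le_log (by positivity)
          have : (2 : ℝ) ≤ n := by exact_mod_cast hn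
          nlinarith
        have hs4 : Real.sqrt ((n : ℝ) + 1) * Real.log ((n : ℝ) + 1) ≤
            4 * (Real.sqrt n * Real.log n) := by
          calc Real.sqrt ((n : ℝ) + 1) * Real.log ((n : ℝ) + 1) ≤
              (2 * Real.sqrt n) * (2 * Real.log n) :=
                mul_le_mul hsq hlg (Real.log_nonneg (by linarith)) (by positivity)
            _ = 4 * (Real.sqrt n * Real.log n) := by ring
        have hs5 := mul_le_mul_of_nonneg_left hs4 hC.le
        linarith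
    have hsqr : δ ^ 2 ≤ (Real.sqrt (8 * C / c) * r n) ^ 2 := by
      rw [mul_pow, Real.sq_sqrt (by positivity)]
      have h6 := r_sq n hn
      rw [← hr] at h6
      rw [← h6] at key
      have h7 : c * n * δ ^ 2 ≤ c * n * (8 * C / c * r n ^ 2) := by
        have e : c * n * (8 * C / c * r n ^ 2) = 8 * C * (r n ^ 2 * n) := by
          field_simp
        rw [e]
        linarith
      exact le_of_mul_le_mul_left h7 (by positivity)
    have h8 : 0 ≤ Real.sqrt (8 * C / c) * r n :=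
      mul_nonneg (Real.sqrt_nonneg _) (hrpos n hn).le
    exact (pow_le_pow_iff_left₀ hδ0 h8 two_ne_zero).1 hsqr
  have hten : Filter.Tendsto (fun n => Real.sqrt (8 * C / c) * r n) Filter.atTop (nhds 0) := by
    have h := (r_tendsto.const_mul (Real.sqrt (8 * C / c)))
    rw [mul_zero] at h
    refine h.congr fun n => ?_
    rw [hr]
  obtain ⟨N, hN⟩ := Filter.eventually_atTop.1 (hten.eventually (gt_mem_nhds one_pos))
  refine ⟨Real.sqrt (8 * C / c) + 1 + ∑ m ∈ Finset.range N, |L (m + 1) - L m - ℓ| / |r m|,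
    ?_, ?_⟩
  · have : 0 ≤ ∑ m ∈ Finset.range N, |L (m + 1) - L m - ℓ| / |r m| :=
      Finset.sum_nonneg fun m _ => by positivity
    positivity
  · intro n hn
    rw [← hr]
    have hrn := hrpos n hn
    have hsum0 : 0 ≤ ∑ m ∈ Finset.range N, |L (m + 1) - L m - ℓ| / |r m| :=
      Finset.sum_nonneg fun m _ => by positivity
    have hsq0 := Real.sqrt_nonneg (8 * C / c)
    by_cases hnN : n < N
    · have h9 : |L (n + 1) - L n - ℓ| / |r n| ≤
          ∑ m ∈ Finset.range N, |L (m + 1) - L m - ℓ| / |r m| :=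
        Finset.single_le_sum (f := fun m => |L (m + 1) - L m - ℓ| / |r m|)
          (fun m _ => by positivity) (Finset.mem_range.2 hnN)
      rw [abs_of_pos hrn, div_le_iff₀ hrn] at h9
      nlinarith
    · have h10 := hN n (by omega)
      have h11 := main n hn
      have h12 : |L (n + 1) - L n - ℓ| ≤ Real.sqrt (8 * C / c) * r n := by
        rcases min_le_iff.1 h11 with h | h
        · exact h
        · linarith
      nlinarith
end Pool.Agent.Helper5.MB
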